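import Pool.Agent.Lib.MP_35885f_tl.Stat

/-!
# Row BDY: the boundary of a class is covered by two bags
-/

open Finset

namespace Pool.MP_35885f.TL

open scoped Classical

theorem bdy_ : BDY := by
  intro hC V N _ _ G R k hk home hhome j
  obtain ⟨h1, h2, h3, h4⟩ := hC V N G R
  by_cases hne : ∃ x, R.top x = j
  swap
  · have h0 : bdy G (fun e => R.top (home e)) j = ∅ := by
      rw [Finset.eq_empty_iff_forall_notMem]
      intro v hv
      simp only [bdy, Finset.mem_filter] at hv
      obtain ⟨_, ⟨w, _, hw⟩, _⟩ := hv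
      exact hne ⟨_, hw⟩
    rw [h0]
    simp
  obtain ⟨y, hy, hmax⟩ : ∃ y, R.top y = j ∧ ∀ x, R.top x = j → R.lvl x ≤ R.lvl y := by
    obtain ⟨x, hx⟩ := hne
    obtain ⟨y, hy, hm⟩ := Finset.exists_max_image (univ.filter fun x => R.top x = j) R.lvl
      ⟨x, by simp [hx]⟩
    exact ⟨y, by simpa using hy, fun x hx => hm x (by simp [hx])⟩
  -- the nodes above a node of the class
  have path : ∀ (x : N) (i : ℕ), i ≤ R.lvl x →
      R.top (R.par^[i] x) = R.top x ∧ R.lvl (R.par^[i] x) + i = R.lvl x := by
    intro x i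
    induction i with
    | zero => intro _; exact ⟨rfl, rfl⟩
    | succ i ih =>
      intro hi
      obtain ⟨a1, a2⟩ := ih (by omega)
      have hnt : ¬ R.Top (R.par^[i] x) := fun h => by
        have := (h2 _ h).1
        omega
      obtain ⟨b1, b2⟩ := h3 _ hnt
      rw [Function.iterate_succ_apply']
      exact ⟨b2.symm.trans a1, by omega⟩
  have claim : ∀ t, R.top t ≠ j → R.top (R.par t) = j → R.par t = y := by
    intro t ht hs
    by_contra hsy
    have hlt : R.lvl (R.par t) < R.lvl y :=
      lt_of_le_of_ne (hmax _ hs) fun e => hsy (h4 _ _ (hs.trans hy.symm) e)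
    obtain ⟨p1, p2⟩ := path y (R.lvl y - R.lvl (R.par t) - 1) (by omega)
    generalize R.par^[R.lvl y - R.lvl (R.par t) - 1] y = s' at p1 p2
    have hnt : ¬ R.Top s' := fun h => by
      have := (h2 _ h).1
      omega
    obtain ⟨b1, b2⟩ := h3 _ hnt
    have hps : R.par s' = R.par t :=
      h4 _ _ (by rw [← b2, p1, hy, hs]) (by omega)
    have hne1 : s' ≠ t := fun e => ht (by rw [← e, p1, hy])
    have hne2 : s' ≠ R.par t := fun e => by
      rw [← e] at hps
      rw [hps] at b1
      omega
    have hne3 : t ≠ R.par t := fun e => ht (by rw [e]; exact hs)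
    have hBr : R.Br (R.par t) := ⟨s', t, hne1, hne2, hne3, hps, rfl⟩
    exact hnt (Or.inr (Or.inr (by rw [hps]; exact hBr)))
  -- the root has the largest number
  have hroot : ∀ s, R.ρ s ≤ R.ρ R.r := by
    obtain ⟨q, _, hq⟩ := Finset.exists_max_image (univ : Finset N) R.ρ ⟨y, Finset.mem_univ _⟩
    have hqr : q = R.r := by
      rw [← R.root q]
      by_contra hc
      have := R.up q hc
      have := hq (R.par q) (Finset.mem_univ _)
      omega
    intro s
    rw [← hqr]
    exact hq s (Finset.mem_univ _)
  refine (Finset.card_le_card (t := R.bag j ∪ R.bag y) ?_).trans ?_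
  swap
  · have a1 := hk j
    have a2 := hk y
    have a3 := Finset.card_union_le (R.bag j) (R.bag y)
    omega
  intro v hv
  simp only [bdy, Finset.mem_filter] at hv
  obtain ⟨_, ⟨w, hw, hwj⟩, w', hw', hwj'⟩ := hv
  have hvx := (hhome v w hw).1
  have hvx' := (hhome v w' hw').1
  generalize home s(v, w) = x at hwj hvx
  generalize home s(v, w') = x' at hwj' hvx'
  obtain ⟨z, hz, hzm⟩ := Finset.exists_max_image (univ.filter fun s => v ∈ R.bag s) R.ρ
    ⟨x, by simpa using hvx⟩
  have hvz : v ∈ R.bag z := by simpa using hz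
  have chain : ∀ (d : ℕ) (s : N), R.ρ z - R.ρ s = d → v ∈ R.bag s →
      ∃ m, R.par^[m] s = z ∧ ∀ i ≤ m, v ∈ R.bag (R.par^[i] s) := by
    intro d
    induction d using Nat.strong_induction_on with
    | _ d ih =>
      intro s hd hvs
      by_cases hsz : s = z
      · exact ⟨0, hsz, fun i hi => by
          have : i = 0 := by omega
          subst this
          exact hvs⟩
      have hle : R.ρ s ≤ R.ρ z := hzm s (by simpa using hvs)
      have hlt : R.ρ s < R.ρ z := lt_of_le_of_ne hle fun e => hsz (R.inj e)
      have hvp : v ∈ R.bag (R.par s) := R.climb v s z hvs hvz hlt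
      have hps : R.par s ≠ s := fun e => by
        have e2 : s = R.r := (R.root s).1 e
        have := hroot z
        rw [e2] at hlt
        omega
      have hup := R.up s hps
      obtain ⟨m, hm1, hm2⟩ := ih (R.ρ z - R.ρ (R.par s)) (by omega) (R.par s) rfl hvp
      refine ⟨m + 1, ?_, ?_⟩
      · rw [Function.iterate_succ_apply]
        exact hm1
      · intro i hi
        rcases Nat.eq_zero_or_pos i with h0 | h0
        · subst h0
          exact hvs
        · obtain ⟨i', rfl⟩ : ∃ i', i = i' + 1 := ⟨i - 1, by omega⟩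
          rw [Function.iterate_succ_apply]
          exact hm2 i' (by omega)
  rw [Finset.mem_union]
  by_cases hzj : R.top z = j
  · right
    obtain ⟨m, hm1, hm2⟩ := chain _ x' rfl hvx'
    have hex : ∃ i, R.top (R.par^[i] x') = j := ⟨m, by rw [hm1]; exact hzj⟩
    have hf := Nat.find_spec hex
    have hfm : Nat.find hex ≤ m := Nat.find_min' hex (by rw [hm1]; exact hzj)
    have hpos : Nat.find hex ≠ 0 := fun e => by
      rw [e] at hf
      exact hwj' hf
    obtain ⟨i, hi⟩ : ∃ i, Nat.find hex = i + 1 := ⟨Nat.find hex - 1, by omega⟩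
    have hi' : R.top (R.par^[i] x') ≠ j := Nat.find_min hex (by omega)
    rw [hi, Function.iterate_succ_apply'] at hf
    have hc := claim _ hi' hf
    have h7 := hm2 (i + 1) (by omega)
    rw [Function.iterate_succ_apply', hc] at h7
    exact h7
  · left
    obtain ⟨m, hm1, hm2⟩ := chain _ x rfl hvx
    have hlm : R.lvl x ≤ m := by
      by_contra hc
      have := (path x m (by omega)).1
      rw [hm1] at this
      exact hzj (this.trans hwj)
    have h5 := hm2 (R.lvl x) hlm
    have h6 : R.par^[R.lvl x] x = j := hwj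
    rwa [h6] at h5

end Pool.MP_35885f.TL
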