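import Pool.Agent.Lib.MP_35885f_tl.Stat

/-!
# Row CHN: the nodes with the same top form a vertical path
-/

open Finset

namespace Pool.MP_35885f.TL

open scoped Classical

section
variable {V N : Type} {G : SimpleGraph V}

lemma chn_root [Fintype N] (R : Rooted G N) (x : N) : ∃ n, R.par^[n] x = R.r := by
  by_contra hc
  push Not at hc
  have hm : StrictMono fun n => R.ρ (R.par^[n] x) := by
    refine strictMono_nat_of_lt_succ fun n => ?_
    rw [Function.iterate_succ_apply']
    exact R.up _ fun h => hc n ((R.root _).1 h)
  have hi : Function.Injective fun n => R.par^[n] x := fun m n h =>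
    hm.injective (congrArg R.ρ h)
  exact not_injective_infinite_finite _ hi

lemma chn_ex [Fintype N] (R : Rooted G N) (x : N) : ∃ n, R.Top (R.par^[n] x) :=
  (chn_root R x).imp fun _ h => Or.inl h

lemma chn_lvl [Fintype N] (R : Rooted G N) (x : N) : R.lvl x = Nat.find (chn_ex R x) := by
  unfold Rooted.lvl
  rw [dif_pos (chn_ex R x)]

lemma chn_zero [Fintype N] (R : Rooted G N) (x : N) (h : R.Top x) :
    R.lvl x = 0 ∧ R.top x = x := by
  have h0 : R.lvl x = 0 := by
    rw [chn_lvl, Nat.find_eq_zero]
    exact h
  refine ⟨h0, ?_⟩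
  unfold Rooted.top
  rw [h0]
  rfl

lemma chn_succ [Fintype N] (R : Rooted G N) (x : N) (h : ¬ R.Top x) :
    R.lvl x = R.lvl (R.par x) + 1 ∧ R.top x = R.top (R.par x) := by
  have h1 : R.lvl x = R.lvl (R.par x) + 1 := by
    rw [chn_lvl, chn_lvl]
    exact Nat.find_comp_succ (chn_ex R x) (chn_ex R (R.par x)) h
  refine ⟨h1, ?_⟩
  unfold Rooted.top
  rw [h1, Function.iterate_succ_apply]

end

theorem chn : CHN := by
  intro V N _ G R
  refine ⟨fun x => ?_, chn_zero R, chn_succ R, ?_⟩
  · unfold Rooted.top
    rw [chn_lvl]
    exact Nat.find_spec (chn_ex R x)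
  · have key : ∀ n, ∀ x y, R.top x = R.top y → R.lvl x = n → R.lvl y = n → x = y := by
      intro n
      induction n with
      | zero =>
        intro x y h hx hy
        unfold Rooted.top at h
        rw [hx, hy] at h
        exact h
      | succ n ih =>
        intro x y h hx hy
        have tx : ¬ R.Top x := fun t => by
          have := (chn_zero R x t).1
          omega
        have ty : ¬ R.Top y := fun t => by
          have := (chn_zero R y t).1
          omega
        obtain ⟨x1, x2⟩ := chn_succ R x tx
        obtain ⟨y1, y2⟩ := chn_succ R y ty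
        have e : R.par x = R.par y := ih _ _ (by rw [← x2, ← y2, h]) (by omega) (by omega)
        by_contra hne
        refine tx (Or.inr (Or.inr ⟨x, y, hne, ?_, ?_, rfl, e.symm⟩))
        · intro hx'
          exact tx (Or.inl ((R.root x).1 hx'.symm))
        · intro hy'
          exact ty (Or.inl ((R.root y).1 (e.symm.trans hy'.symm)))
    exact fun x y h h' => key _ x y h rfl h'.symm

end Pool.MP_35885f.TL
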