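import Pool.Agent.Lib.MP_35885f_tl.Stat
import Pool.Agent.Lib.MP_35885f_lg.TFR2
import Pool.Agent.Lib.MP_35885f_lg.WBT
import Pool.Agent.Lib.MP_35885f_lg.GIR
import Pool.Agent.Lib.MP_35885f_lg.WB
import Pool.Agent.Lib.MP_35885f_lg.CNT
import Pool.Agent.Lib.MP_35885f_lg.BDE
import Pool.Agent.Lib.MP_35885f_lg.BDC
import Pool.Agent.Lib.MP_35885f_lg.BDS
import Pool.Agent.Lib.MP_35885f_lg.BDT
import Pool.Agent.Lib.MP_35885f_lg.MMX
import Pool.Agent.Lib.MP_35885f_lg.EXC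

/-!
# Row EMR
-/

open Finset

namespace Pool.MP_35885f.TL

open scoped Classical

/-- Row EMR. -/
theorem emr : EMR := by
  intro V _ G κ hκ R hR
  obtain ⟨p, hp0, hpP, hp1, hpL⟩ := LG.tfr2
    (LG.wbt LG.gir (LG.cnt (LG.wb LG.gir)) LG.bde LG.bdc LG.bds) LG.bdt LG.mmx LG.swpw LG.exc
    V G κ hκ
  -- the average over `R`
  have h1 : ∑ B, p B * ∑ e ∈ R, (2 : ℝ) ^ ply e B ≤ (R.card : ℝ) * 2 ^ (12 * κ) := by
    have h2 : ∑ B, p B * ∑ e ∈ R, (2 : ℝ) ^ ply e B =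
        ∑ e ∈ R, ∑ B, p B * (2 : ℝ) ^ ply e B := by
      rw [Finset.sum_comm]
      exact Finset.sum_congr rfl fun B _ => by rw [Finset.mul_sum]
    rw [h2]
    calc ∑ e ∈ R, ∑ B, p B * (2 : ℝ) ^ ply e B ≤ ∑ _e ∈ R, (2 : ℝ) ^ (12 * κ) :=
          Finset.sum_le_sum fun e he => hpL e (hR e he)
      _ = (R.card : ℝ) * 2 ^ (12 * κ) := by rw [Finset.sum_const, nsmul_eq_mul]
  obtain ⟨B, hB0, hB⟩ : ∃ B, p B ≠ 0 ∧
      ∑ e ∈ R, (2 : ℝ) ^ ply e B ≤ (R.card : ℝ) * 2 ^ (12 * κ) := by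
    by_contra hcon
    push Not at hcon
    obtain ⟨B₀, hB₀⟩ : ∃ B, p B ≠ 0 := by
      by_contra h
      push Not at h
      rw [Finset.sum_eq_zero fun B _ => h B] at hp1
      exact zero_ne_one hp1
    have h3 : ∑ B, p B * ((R.card : ℝ) * 2 ^ (12 * κ)) <
        ∑ B, p B * ∑ e ∈ R, (2 : ℝ) ^ ply e B := by
      apply Finset.sum_lt_sum
      · intro B _
        by_cases h : p B = 0
        · simp [h]
        · exact mul_le_mul_of_nonneg_left (hcon B h).le (hp0 B)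
      · exact ⟨B₀, mem_univ _, mul_lt_mul_of_pos_left (hcon B₀ hB₀)
          (lt_of_le_of_ne (hp0 B₀) (Ne.symm hB₀))⟩
    rw [← Finset.sum_mul, hp1, one_mul] at h3
    linarith
  refine ⟨B, hpP B hB0, fun e he => ?_⟩
  have h4 : (2 : ℝ) ^ ply e B ≤ (R.card : ℝ) * 2 ^ (12 * κ) :=
    (Finset.single_le_sum (f := fun e => (2 : ℝ) ^ ply e B) (fun e _ => by positivity) he).trans hB
  have h5 : 2 ^ ply e B ≤ R.card * 2 ^ (12 * κ) := by exact_mod_cast h4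
  have hR0 : R.card ≠ 0 := by
    rw [Finset.card_ne_zero]; exact ⟨e, he⟩
  have h6 : ∀ m : ℕ, Nat.log 2 (R.card * 2 ^ m) = Nat.log 2 R.card + m := by
    intro m
    induction m with
    | zero => simp
    | succ m ih =>
      rw [pow_succ, ← mul_assoc, Nat.log_mul_base (by norm_num) (by positivity), ih, add_assoc]
  have h7 : ply e B ≤ Nat.log 2 (R.card * 2 ^ (12 * κ)) :=
    (Nat.le_log_iff_pow_le (by norm_num) (by positivity)).2 h5
  rw [h6] at h7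
  omega

end Pool.MP_35885f.TL
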