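import Pool.Agent.Lib.MP_35885f_tl.Stat

/-!
# Row FIN
-/

open Finset

namespace Pool.MP_35885f.TL

open scoped Classical

/-- Row FIN. -/
theorem fin : FIN := by
  intro emr twm for_ rep glue root tops chn pd bdy_ V _ G D k L hk hbag hleaf
  obtain ⟨N, _, R, hR, hL⟩ := root V G D k L hbag hleaf
  -- the home of an edge
  set home : Sym2 V → N := fun e =>
    if h : ∃ x, ∀ v ∈ e, v ∈ R.bag x then h.choose else R.r with hhome
  have hh : ∀ u v, G.Adj u v → u ∈ R.bag (home s(u, v)) ∧ v ∈ R.bag (home s(u, v)) := by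
    intro u v huv
    obtain ⟨x, hx1, hx2⟩ := R.edge u v huv
    have h : ∃ x, ∀ w ∈ s(u, v), w ∈ R.bag x := ⟨x, fun w hw => by
      rcases Sym2.mem_iff.1 hw with rfl | rfl
      · exact hx1
      · exact hx2⟩
    have h1 : home s(u, v) = h.choose := by rw [hhome]; simp only; rw [dif_pos h]
    rw [h1]
    exact ⟨h.choose_spec u (Sym2.mem_mk_left u v), h.choose_spec v (Sym2.mem_mk_right u v)⟩
  obtain ⟨hc1, hc2, hc3, hc4⟩ := chn V N G R
  set c : Sym2 V → {x : N // R.Top x} := fun e => ⟨R.top (home e), hc1 _⟩ with hc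
  have hcls : ∀ j : {x : N // R.Top x}, cls G c j = cls G (fun e => R.top (home e)) j.1 := by
    intro j
    ext u v
    simp only [cls, hc, Subtype.ext_iff]
  have hbdy : ∀ j : {x : N // R.Top x}, bdy G c j = bdy G (fun e => R.top (home e)) j.1 := by
    intro j
    unfold bdy
    ext v
    simp only [hc, Subtype.ext_iff, ne_eq, mem_filter, mem_univ, true_and]
  have hne : Nonempty {x : N // R.Top x} := ⟨⟨R.r, Or.inl rfl⟩⟩
  have hcard : Fintype.card {x : N // R.Top x} ≤ 3 * L := by
    rw [Fintype.card_subtype]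
    refine le_trans ?_ ((tops V N G R).trans (Nat.mul_le_mul_left 3 hL))
    exact le_of_eq (by congr)
  have hpos : 0 < Fintype.card {x : N // R.Top x} := Fintype.card_pos
  have hLpos : L ≠ 0 := by omega
  have htw : treewidth G ≤ k := Nat.sInf_le ⟨D, hbag⟩
  have hκ : 24 * (treewidth G + 1) ≤ 2 ^ (k + 5) := by
    have h1 : k + 1 ≤ 2 ^ k := Nat.lt_two_pow_self
    have h2 : 2 ^ (k + 5) = 32 * 2 ^ k := by rw [pow_add]; ring
    omega
  have key := glue emr twm for_ rep V {x : N // R.Top x} G c (2 * (k + 1)) (k + 1) (k + 5) hκ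
    (fun j => by rw [hbdy]; exact bdy_ chn V N G R k hR home hh j.1)
    (fun j => by
      rw [hcls]
      exact (basisNumber_le_pathwidth _).trans
        (Nat.add_le_add_right (pd chn V N G R k hR home hh j.1) 1))
  have hlog : Nat.log 2 (Fintype.card {x : N // R.Top x}) ≤ Nat.log 2 L + 2 := by
    have h1 : Fintype.card {x : N // R.Top x} ≤ L * 2 ^ 2 := by omega
    calc Nat.log 2 (Fintype.card {x : N // R.Top x}) ≤ Nat.log 2 (L * 2 ^ 2) :=
          Nat.log_mono_right h1
      _ = Nat.log 2 L + 2 := by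
          rw [pow_two, ← mul_assoc, Nat.log_mul_base (by norm_num) (by positivity),
            Nat.log_mul_base (by norm_num) hLpos]
  omega

end Pool.MP_35885f.TL
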