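import Pool.Agent.Lib.MP_35885f_tl.Stat

/-!
# Row FOR: maximal forests
-/

open Finset

namespace Pool.MP_35885f.TL

open scoped Classical

lemma for_zmod {a : ZMod 2} (h : a ≠ 0) : a = 1 := by
  revert h; revert a; decide

/-- Row FOR. -/
theorem for_ : FOR := by
  intro V _ P
  -- a forest in `P` with the largest number of edges
  have hne : (univ.filter fun F : SimpleGraph V => F ≤ P ∧ cycleSpace F = ⊥).Nonempty := by
    refine ⟨⊥, ?_⟩
    simp only [mem_filter, mem_univ, true_and, bot_le]
    rw [eq_bot_iff]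
    intro z hz
    rw [Submodule.mem_bot]
    funext e
    exact hz.1 e (by simp)
  obtain ⟨F, hF, hmax⟩ := Finset.exists_max_image _
    (fun F : SimpleGraph V => F.edgeSet.ncard) hne
  simp only [mem_filter, mem_univ, true_and] at hF hmax
  refine ⟨F, hF.1, hF.2, fun e he heF => ?_⟩
  -- `F + e`
  set F' : SimpleGraph V := F ⊔ SimpleGraph.fromEdgeSet {e} with hF'
  have hndiag : ¬ e.IsDiag := P.not_isDiag_of_mem_edgeSet he
  have hF'e : ∀ f, f ∈ F'.edgeSet ↔ f ∈ F.edgeSet ∨ f = e := by
    intro f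
    rw [hF', SimpleGraph.edgeSet_sup, SimpleGraph.edgeSet_fromEdgeSet]
    simp only [Set.mem_union, Set.mem_diff, Set.mem_singleton_iff]
    constructor
    · rintro (h | h)
      · exact Or.inl h
      · exact Or.inr h.1
    · rintro (h | h)
      · exact Or.inl h
      · exact Or.inr ⟨h, by rw [h]; exact hndiag⟩
  have hle : F' ≤ P := by
    rw [← SimpleGraph.edgeSet_subset_edgeSet]
    intro f hf
    rcases (hF'e f).1 hf with h | h
    · exact SimpleGraph.edgeSet_subset_edgeSet.2 hF.1 h
    · rw [h]; exact he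
  have hcard : F.edgeSet.ncard < F'.edgeSet.ncard := by
    apply Set.ncard_lt_ncard _ (Set.toFinite _)
    rw [Set.ssubset_iff_of_subset]
    · exact ⟨e, (hF'e e).2 (Or.inr rfl), heF⟩
    · intro f hf
      exact (hF'e f).2 (Or.inl hf)
  have hcyc : cycleSpace F' ≠ ⊥ := by
    intro h
    have := hmax F' ⟨hle, h⟩
    omega
  obtain ⟨z, hz, hz0⟩ := Submodule.exists_mem_ne_zero_of_ne_bot hcyc
  have hze : z e ≠ 0 := by
    intro h
    apply hz0
    have h1 : z ∈ cycleSpace F := by
      refine ⟨fun f hf => ?_, hz.2⟩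
      by_cases hfe : f = e
      · rw [hfe]; exact h
      · exact hz.1 f fun h' => by
          rcases (hF'e f).1 h' with h2 | h2
          · exact hf h2
          · exact hfe h2
    rw [hF.2, Submodule.mem_bot] at h1
    exact h1
  refine ⟨z, ⟨fun f hf => hz.1 f fun h => hf (SimpleGraph.edgeSet_subset_edgeSet.2 hle h), hz.2⟩,
    for_zmod hze, fun f hfe hfF => hz.1 f fun h => ?_⟩
  rcases (hF'e f).1 h with h2 | h2
  · exact hfF h2
  · exact hfe h2

end Pool.MP_35885f.TL
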