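import Pool.Agent.Lib.MP_35885f_tl.Stat

/-!
# Row GLUE: gluing classes of edges which share few vertices
-/

open Finset

namespace Pool.MP_35885f.TL

open scoped Classical

lemma glue_log (n t : ℕ) (hn : n ≠ 0) : Nat.log 2 (n * 2 ^ t) = t + Nat.log 2 n := by
  induction t with
  | zero => simp
  | succ t ih =>
    rw [pow_succ, ← mul_assoc, Nat.log_mul_base (by norm_num) (by positivity), ih]
    omega

lemma glue_exists_basis {V : Type} [Fintype V] (G : SimpleGraph V) (b : ℕ)
    (hb : basisNumber G ≤ b) :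
    ∃ B : Finset (Sym2 V → ZMod 2), IsCycleBasis G B ∧ ∀ e ∈ G.edgeSet, ply e B ≤ b := by
  have hne : {m | ∃ B : Finset (Sym2 V → ZMod 2), IsCycleBasis G B ∧
      ∀ e ∈ G.edgeSet, ply e B ≤ m}.Nonempty := by
    obtain ⟨s, hs1, hs2, hs3⟩ := exists_linearIndependent (ZMod 2)
      (cycleSpace G : Set (Sym2 V → ZMod 2))
    have hfin : s.Finite := Set.toFinite s
    have hcoe : (hfin.toFinset : Set (Sym2 V → ZMod 2)) = s := hfin.coe_toFinset
    refine ⟨hfin.toFinset.card, hfin.toFinset, ⟨?_, ?_⟩, fun e _ => card_filter_le _ _⟩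
    · have h1 : ∀ x, x ∈ hfin.toFinset ↔ x ∈ s := fun x => hfin.mem_toFinset
      have h2 := hs3.comp (fun x : hfin.toFinset => (⟨x.1, (h1 x.1).1 x.2⟩ : s)) (by
        intro x y h
        simp only [Subtype.mk.injEq] at h
        exact Subtype.ext h)
      exact h2
    · rw [hcoe, hs2, Submodule.span_eq]
  obtain ⟨B, hB1, hB2⟩ := Nat.sInf_mem hne
  exact ⟨B, hB1, fun e he => (hB2 e he).trans hb⟩

lemma glue_mono {V : Type} [Fintype V] {G H : SimpleGraph V} (h : H ≤ G) :
    cycleSpace H ≤ cycleSpace G := by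
  rintro z ⟨hz1, hz2⟩
  exact ⟨fun e he => hz1 e fun h' => he (SimpleGraph.edgeSet_mono h h'), hz2⟩

lemma cls_le {V J : Type} (G : SimpleGraph V) (c : Sym2 V → J) (j : J) : cls G c j ≤ G :=
  fun _ _ h => h.1

lemma mem_cls {V J : Type} (G : SimpleGraph V) (c : Sym2 V → J) (j : J) (e : Sym2 V) :
    e ∈ (cls G c j).edgeSet ↔ e ∈ G.edgeSet ∧ c e = j := by
  induction e using Sym2.ind with
  | _ u v => exact Iff.rfl

/-- The union of the graphs `F j` restricted to their classes. -/
def glueH {V J : Type} (c : Sym2 V → J) (F : J → SimpleGraph V) : SimpleGraph V where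
  Adj u v := (F (c s(u, v))).Adj u v
  symm := ⟨fun u v h => by rw [Sym2.eq_swap]; exact h.symm⟩
  loopless := ⟨fun u h => h.ne rfl⟩

lemma mem_glueH {V J : Type} (c : Sym2 V → J) (F : J → SimpleGraph V) (e : Sym2 V) :
    e ∈ (glueH c F).edgeSet ↔ e ∈ (F (c e)).edgeSet := by
  induction e using Sym2.ind with
  | _ u v => exact Iff.rfl

/-- Edges with the same code carry the same values of cycles. -/
lemma glue_same {V J : Type} [Fintype V] (G : SimpleGraph V) (c : Sym2 V → J)
    (F : J → SimpleGraph V) (hF : ∀ j, F j ≤ cls G c j) (j : J) (a : Sym2 V → V → ZMod 2)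
    (ha : ∀ g : Sym2 V → ZMod 2,
      (∀ e, e ∉ (F j).edgeSet → g e = 0) → (∀ v, v ∉ bdy G c j → ∑ w, g s(v, w) = 0) →
      ∀ e, g e = ∑ v ∈ bdy G c j, a e v * ∑ w, g s(v, w))
    (z : Sym2 V → ZMod 2) (hz : z ∈ cycleSpace (glueH c F)) (e e' : Sym2 V) (he : c e = j)
    (he' : c e' = j) (h : ∀ v ∈ bdy G c j, a e v = a e' v) : z e = z e' := by
  obtain ⟨hz1, hz2⟩ := hz
  have hzG : ∀ e, e ∉ G.edgeSet → z e = 0 := by
    intro e he
    refine hz1 e fun h' => he ?_
    exact SimpleGraph.edgeSet_mono ((hF (c e)).trans (cls_le G c _)) ((mem_glueH c F e).1 h')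
  set g : Sym2 V → ZMod 2 := fun e => if c e = j then z e else 0 with hg
  have hg1 : ∀ e, e ∉ (F j).edgeSet → g e = 0 := by
    intro e he
    simp only [hg]
    split_ifs with hc
    · refine hz1 e fun h' => he ?_
      have h2 := (mem_glueH c F e).1 h'
      rwa [hc] at h2
    · rfl
  have hg2 : ∀ v, v ∉ bdy G c j → ∑ w, g s(v, w) = 0 := by
    intro v hv
    have hv' : ¬((∃ w, G.Adj v w ∧ c s(v, w) = j) ∧ ∃ w, G.Adj v w ∧ c s(v, w) ≠ j) := by
      intro h'
      exact hv (by simpa [bdy] using h')
    by_cases h1 : ∃ w, G.Adj v w ∧ c s(v, w) = j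
    · have h2 : ¬ ∃ w, G.Adj v w ∧ c s(v, w) ≠ j := fun h2 => hv' ⟨h1, h2⟩
      push Not at h2
      rw [← hz2 v]
      refine Finset.sum_congr rfl fun w _ => ?_
      simp only [hg]
      split_ifs with hc
      · rfl
      · exact (hzG _ fun h' => hc (h2 w h')).symm
    · push Not at h1
      refine Finset.sum_eq_zero fun w _ => ?_
      simp only [hg]
      split_ifs with hc
      · exact hzG _ fun h' => h1 w h' hc
      · rfl
  have h1 := ha g hg1 hg2 e
  have h2 := ha g hg1 hg2 e'
  have h3 : g e = g e' := by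
    rw [h1, h2]
    exact Finset.sum_congr rfl fun v hv => by rw [h v hv]
  simpa [hg, he, he'] using h3

theorem glue : GLUE := by
  intro hE hT hFo hR V J _ _ _ G c t b κ hκ hD hb
  choose F hF1 hF2 hF3 using fun j => hFo V (cls G c j)
  choose a ha using fun j => hR V (F j) (hF2 j) (bdy G c j)
  set H := glueH c F with hH
  have hHG : H ≤ G := by
    intro u v h
    exact (hF1 _ h).1
  -- codes
  set code : Sym2 V → (_ : J) × Finset V :=
    fun e => ⟨c e, (bdy G c (c e)).filter fun v => a (c e) e v ≠ 0⟩ with hcode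
  have hsame : ∀ z ∈ cycleSpace H, ∀ e e', code e = code e' → z e = z e' := by
    intro z hz e e' hee
    have h1 : c e = c e' := congrArg Sigma.fst hee
    have h2 : (bdy G c (c e)).filter (fun v => a (c e) e v ≠ 0) =
        (bdy G c (c e')).filter fun v => a (c e') e' v ≠ 0 := congrArg Sigma.snd hee
    refine glue_same G c F hF1 (c e) (a (c e)) (ha (c e)) z hz e e' rfl h1.symm ?_
    intro v hv
    rw [← h1] at h2
    have h3 : a (c e) e v ≠ 0 ↔ a (c e) e' v ≠ 0 := by
      have := Finset.ext_iff.1 h2 v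
      simpa [hv] using this
    generalize a (c e) e v = x at h3
    generalize a (c e) e' v = y at h3
    revert x y
    decide
  set EH : Finset (Sym2 V) := univ.filter fun e => e ∈ H.edgeSet with hEH
  have hrep : ∀ q ∈ EH.image code, ∃ e, e ∈ H.edgeSet ∧ code e = q := by
    intro q hq
    obtain ⟨e, he, rfl⟩ := Finset.mem_image.1 hq
    exact ⟨e, (Finset.mem_filter.1 he).2, rfl⟩
  choose rep hrep1 hrep2 using hrep
  set R : Finset (Sym2 V) := (EH.image code).attach.image fun q => rep q.1 q.2 with hRdef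
  have hRH : ∀ e ∈ R, e ∈ H.edgeSet := by
    intro e he
    obtain ⟨q, _, rfl⟩ := Finset.mem_image.1 he
    exact hrep1 q.1 q.2
  have hRcard : R.card ≤ Fintype.card J * 2 ^ t := by
    have h1 : (EH.image code).card ≤ ((univ : Finset J).sigma fun j => (bdy G c j).powerset).card := by
      refine card_le_card ?_
      intro q hq
      obtain ⟨e, he, rfl⟩ := Finset.mem_image.1 hq
      rw [Finset.mem_sigma]
      exact ⟨mem_univ _, Finset.mem_powerset.2 (Finset.filter_subset _ _)⟩
    rw [Finset.card_sigma] at h1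
    refine (Finset.card_image_le.trans (Finset.card_attach.trans_le h1)).trans ?_
    calc ∑ j : J, ((bdy G c j).powerset).card ≤ ∑ _j : J, 2 ^ t := by
          refine Finset.sum_le_sum fun j _ => ?_
          rw [Finset.card_powerset]
          exact Nat.pow_le_pow_right (by norm_num) (hD j)
      _ = Fintype.card J * 2 ^ t := by simp
  have hRlog : Nat.log 2 R.card ≤ t + Nat.log 2 (Fintype.card J) := by
    rw [← glue_log _ _ Fintype.card_ne_zero]
    exact Nat.log_mono_right hRcard
  obtain ⟨BH, hBH, hBHply⟩ := hE V H κ (by have := hT V G H hHG; omega) R hRH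
  have hBHmem : ∀ z ∈ BH, z ∈ cycleSpace H := by
    intro z hz
    rw [← hBH.2]
    exact Submodule.subset_span hz
  have hplyH : ∀ e, ply e BH ≤ 12 * κ + (t + Nat.log 2 (Fintype.card J)) := by
    intro e
    by_cases he : e ∈ H.edgeSet
    · have hq : code e ∈ EH.image code :=
        Finset.mem_image_of_mem _ (Finset.mem_filter.2 ⟨mem_univ _, he⟩)
      have h1 : ply e BH = ply (rep (code e) hq) BH := by
        unfold ply
        congr 1
        refine Finset.filter_congr fun z hz => ?_
        rw [hsame z (hBHmem z hz) e (rep (code e) hq) (hrep2 _ hq).symm]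
      rw [h1]
      refine (hBHply _ (Finset.mem_image.2 ⟨⟨code e, hq⟩, mem_attach _ _, rfl⟩)).trans ?_
      omega
    · have h1 : ply e BH = 0 := by
        unfold ply
        rw [Finset.card_eq_zero, Finset.filter_eq_empty_iff]
        intro z hz
        rw [not_not]
        exact (hBHmem z hz).1 e he
      omega
  choose B hB1 hB2 using fun j => glue_exists_basis (cls G c j) b (hb j)
  have hBmem : ∀ j, ∀ z ∈ B j, z ∈ cycleSpace (cls G c j) := by
    intro j z hz
    rw [← (hB1 j).2]
    exact Submodule.subset_span hz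
  set S : Finset (Sym2 V → ZMod 2) := BH ∪ univ.biUnion B with hS
  refine basisNumber_le_of_span G _ S ?_ ?_
  · apply le_antisymm
    · refine Submodule.span_le.2 fun z hz => ?_
      rcases Finset.mem_union.1 (Finset.mem_coe.1 hz) with h | h
      · exact glue_mono hHG (hBHmem z h)
      · obtain ⟨j, _, hj⟩ := Finset.mem_biUnion.1 h
        exact glue_mono (cls_le G c j) (hBmem j z hj)
    · intro z hz
      have hspH : cycleSpace H ≤ Submodule.span (ZMod 2) (S : Set (Sym2 V → ZMod 2)) := by
        rw [← hBH.2]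
        refine Submodule.span_mono fun x hx => ?_
        exact Finset.mem_coe.2 (Finset.mem_union_left _ (Finset.mem_coe.1 hx))
      have hspj : ∀ j, cycleSpace (cls G c j) ≤
          Submodule.span (ZMod 2) (S : Set (Sym2 V → ZMod 2)) := by
        intro j
        rw [← (hB1 j).2]
        refine Submodule.span_mono fun x hx => ?_
        exact Finset.mem_coe.2 (Finset.mem_union_right _
          (Finset.mem_biUnion.2 ⟨j, mem_univ _, Finset.mem_coe.1 hx⟩))
      have hze : ∀ e, e ∈ G.edgeSet ∧ e ∉ H.edgeSet →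
          ∃ y ∈ cycleSpace (cls G c (c e)), y e = 1 ∧
            ∀ f, f ≠ e → f ∉ H.edgeSet → y f = 0 := by
        rintro e ⟨he1, he2⟩
        obtain ⟨y, hy1, hy2, hy3⟩ := hF3 (c e) e ((mem_cls G c _ e).2 ⟨he1, rfl⟩)
          fun h => he2 ((mem_glueH c F e).2 h)
        refine ⟨y, hy1, hy2, fun f hfe hf => hy3 f hfe fun h => ?_⟩
        have h1 : c f = c e := ((mem_cls G c _ f).1 (SimpleGraph.edgeSet_mono (hF1 _) h)).2
        rw [← h1] at h
        exact hf ((mem_glueH c F f).2 h)
      choose! y hy1 hy2 hy3 using hze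
      set Q : Finset (Sym2 V) := univ.filter fun e => e ∈ G.edgeSet ∧ e ∉ H.edgeSet with hQ
      set w : Sym2 V → ZMod 2 := ∑ e ∈ Q, z e • y e with hw
      have hwS : w ∈ Submodule.span (ZMod 2) (S : Set (Sym2 V → ZMod 2)) := by
        refine Submodule.sum_mem _ fun e he => Submodule.smul_mem _ _ ?_
        exact hspj (c e) (hy1 e (Finset.mem_filter.1 he).2)
      have hwG : w ∈ cycleSpace G := by
        refine Submodule.sum_mem _ fun e he => Submodule.smul_mem _ _ ?_
        exact glue_mono (cls_le G c _) (hy1 e (Finset.mem_filter.1 he).2)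
      have hzw : z + w ∈ cycleSpace G := Submodule.add_mem _ hz hwG
      have hzwH : z + w ∈ cycleSpace H := by
        refine ⟨fun f hf => ?_, hzw.2⟩
        by_cases hfG : f ∈ G.edgeSet
        · have hfQ : f ∈ Q := Finset.mem_filter.2 ⟨mem_univ _, hfG, hf⟩
          have h1 : w f = z f := by
            rw [hw, Finset.sum_apply, Finset.sum_eq_single f]
            · rw [Pi.smul_apply, hy2 f ⟨hfG, hf⟩, smul_eq_mul, mul_one]
            · intro e he hef
              rw [Pi.smul_apply, hy3 e (Finset.mem_filter.1 he).2 f hef.symm hf, smul_zero]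
            · intro h
              exact absurd hfQ h
          rw [Pi.add_apply, h1]
          exact CharTwo.add_self_eq_zero _
        · exact hzw.1 f hfG
      have h2 : z = (z + w) - w := by abel
      rw [h2]
      exact Submodule.sub_mem _ (hspH hzwH) hwS
  · intro e he
    have h1 : ply e S ≤ ply e BH + ply e (B (c e)) := by
      unfold ply
      refine (card_le_card ?_).trans (card_union_le _ _)
      intro x hx
      obtain ⟨hx1, hx2⟩ := Finset.mem_filter.1 hx
      rcases Finset.mem_union.1 hx1 with h | h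
      · exact Finset.mem_union_left _ (Finset.mem_filter.2 ⟨h, hx2⟩)
      · obtain ⟨j, _, hj⟩ := Finset.mem_biUnion.1 h
        refine Finset.mem_union_right _ (Finset.mem_filter.2 ⟨?_, hx2⟩)
        have h3 : e ∈ (cls G c j).edgeSet := by
          by_contra h3
          exact hx2 ((hBmem j x hj).1 e h3)
        rw [((mem_cls G c j e).1 h3).2]
        exact hj
    have h2 := hplyH e
    have h3 := hB2 (c e) e ((mem_cls G c _ e).2 ⟨he, rfl⟩)
    omega

end Pool.MP_35885f.TL
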