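import Pool.Agent.Lib.MP_35885f_tl.Stat

/-!
# Row PD: the classes have path decompositions
-/

open Finset

namespace Pool.MP_35885f.TL

open scoped Classical

/-- a path decomposition from a sequence of bags which need not cover the isolated vertices -/
lemma pd_of {V : Type} [Fintype V] (H : SimpleGraph V) (m k : ℕ) (b : ℕ → Finset V)
    (hb : ∀ i, (b i).card ≤ k + 1)
    (hconv : ∀ v x y z, x ≤ y → y ≤ z → z < m → v ∈ b x → v ∈ b z → v ∈ b y)
    (hedge : ∀ u v, H.Adj u v → ∃ x, x < m ∧ u ∈ b x ∧ v ∈ b x) : pathwidth H ≤ k := by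
  let e : V ≃ Fin (Fintype.card V) := Fintype.equivFin V
  let bag : Fin (m + Fintype.card V) → Finset V := fun i =>
    if i.1 < m then b i.1 else univ.filter fun v => m + (e v).1 = i.1 ∧ ∀ x < m, v ∉ b x
  have hlt : ∀ i : Fin (m + Fintype.card V), i.1 < m → bag i = b i.1 := fun i hi => if_pos hi
  have hge : ∀ (i : Fin (m + Fintype.card V)) (v : V), ¬ i.1 < m → (v ∈ bag i ↔
      m + (e v).1 = i.1 ∧ ∀ x < m, v ∉ b x) := by
    intro i v hi
    simp only [bag]
    rw [if_neg hi]
    simp
  refine Nat.sInf_le ⟨⟨m + Fintype.card V, bag, ?_, ?_, ?_⟩, ?_⟩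
  · intro v
    by_cases h : ∃ x < m, v ∈ b x
    · obtain ⟨x, hx, hv⟩ := h
      refine ⟨⟨x, by omega⟩, ?_⟩
      rw [hlt _ hx]
      exact hv
    · push Not at h
      refine ⟨⟨m + (e v).1, by have := (e v).2; omega⟩, ?_⟩
      rw [hge _ _ (by dsimp only; omega)]
      exact ⟨rfl, h⟩
  · intro v x y z hxy hyz hx hz
    have hxy' : x.1 ≤ y.1 := hxy
    have hyz' : y.1 ≤ z.1 := hyz
    by_cases hzm : z.1 < m
    · rw [hlt _ hzm] at hz
      rw [hlt _ (by omega)] at hx
      rw [hlt _ (by omega)]
      exact hconv v _ _ _ hxy' hyz' hzm hx hz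
    · have hz' := hz
      rw [hge _ _ hzm] at hz
      by_cases hxm : x.1 < m
      · rw [hlt _ hxm] at hx
        exact absurd hx (hz.2 _ hxm)
      · rw [hge _ _ hxm] at hx
        have h1 : y = z := Fin.ext (by omega)
        rw [h1]
        exact hz'
  · intro u v huv
    obtain ⟨x, hx, hu, hv⟩ := hedge u v huv
    refine ⟨⟨x, by omega⟩, ?_⟩
    rw [hlt _ hx]
    exact ⟨hu, hv⟩
  · intro x
    by_cases hx : x.1 < m
    · exact (congrArg Finset.card (hlt _ hx)).trans_le (hb _)
    · have h1 : (bag x).card ≤ 1 := by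
        rw [Finset.card_le_one]
        intro u hu v hv
        rw [hge _ _ hx] at hu hv
        exact e.injective (Fin.ext (by omega))
      exact h1.trans (by omega)

theorem pd : PD := by
  intro hC V N _ _ G R k hk home hhome j
  obtain ⟨h1, h2, h3, h4⟩ := hC V N G R
  by_cases hne : ∃ x, R.top x = j
  swap
  · refine pd_of _ 0 k (fun _ => ∅) (fun _ => by simp) (fun v x y z _ _ hz => absurd hz (by omega))
      fun u v huv => absurd ⟨_, huv.2⟩ hne
  obtain ⟨y, hy, hmax⟩ : ∃ y, R.top y = j ∧ ∀ x, R.top x = j → R.lvl x ≤ R.lvl y := by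
    obtain ⟨x, hx⟩ := hne
    obtain ⟨y, hy, hm⟩ := Finset.exists_max_image (univ.filter fun x => R.top x = j) R.lvl
      ⟨x, by simp [hx]⟩
    exact ⟨y, by simpa using hy, fun x hx => hm x (by simp [hx])⟩
  have path : ∀ (i : ℕ), i ≤ R.lvl y →
      R.top (R.par^[i] y) = j ∧ R.lvl (R.par^[i] y) + i = R.lvl y := by
    intro i
    induction i with
    | zero => intro _; exact ⟨hy, rfl⟩
    | succ i ih =>
      intro hi
      obtain ⟨a1, a2⟩ := ih (by omega)
      have hnt : ¬ R.Top (R.par^[i] y) := fun h => by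
        have := (h2 _ h).1
        omega
      obtain ⟨b1, b2⟩ := h3 _ hnt
      rw [Function.iterate_succ_apply']
      exact ⟨b2.symm.trans a1, by omega⟩
  have incr : ∀ (i d : ℕ), i + d + 1 ≤ R.lvl y →
      R.ρ (R.par^[i] y) < R.ρ (R.par^[i + d + 1] y) := by
    intro i d
    induction d with
    | zero =>
      intro hi
      obtain ⟨a1, a2⟩ := path i (by omega)
      rw [add_zero, Function.iterate_succ_apply']
      apply R.up
      intro e
      have e2 : R.Top (R.par^[i] y) := Or.inl ((R.root _).1 e)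
      have := (h2 _ e2).1
      omega
    | succ d ih =>
      intro hi
      have h5 := ih (by omega)
      refine h5.trans ?_
      obtain ⟨a1, a2⟩ := path (i + d + 1) (by omega)
      have e1 : i + (d + 1) + 1 = (i + d + 1) + 1 := by ring
      rw [e1, Function.iterate_succ_apply' R.par (i + d + 1)]
      apply R.up
      intro e
      have e2 : R.Top (R.par^[i + d + 1] y) := Or.inl ((R.root _).1 e)
      have := (h2 _ e2).1
      omega
  refine pd_of _ (R.lvl y + 1) k (fun i => R.bag (R.par^[R.lvl y - i] y)) (fun _ => hk _) ?_ ?_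
  · intro v x y' z hxy hyz hz hvx hvz
    have key : ∀ d, d ≤ z - x → v ∈ R.bag (R.par^[R.lvl y - (z - d)] y) := by
      intro d
      induction d with
      | zero => intro _; exact hvz
      | succ d ih =>
        intro hd
        have h5 := ih (by omega)
        obtain ⟨d', hd'⟩ : ∃ d', R.lvl y - x = (R.lvl y - (z - d)) + d' + 1 :=
          ⟨z - d - x - 1, by omega⟩
        have h6 := incr (R.lvl y - (z - d)) d' (by omega)
        rw [← hd'] at h6
        have h7 := R.climb v _ _ h5 hvx h6
        rw [← Function.iterate_succ_apply' R.par] at h7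
        have e1 : (R.lvl y - (z - d)).succ = R.lvl y - (z - (d + 1)) := by omega
        rw [e1] at h7
        exact h7
    have h8 := key (z - y') (by omega)
    have e1 : z - (z - y') = y' := by omega
    rw [e1] at h8
    exact h8
  · intro u v huv
    have h5 := hmax _ huv.2
    obtain ⟨a1, a2⟩ := path (R.lvl y - R.lvl (home s(u, v))) (by omega)
    have h6 : R.par^[R.lvl y - R.lvl (home s(u, v))] y = home s(u, v) :=
      h4 _ _ (a1.trans huv.2.symm) (by omega)
    refine ⟨R.lvl (home s(u, v)), by omega, ?_⟩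
    rw [h6]
    exact hhome u v huv.1

end Pool.MP_35885f.TL
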