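import Pool.Agent.Lib.MP_35885f_tl.Stat

/-!
# Row REP: vectors on a forest
-/

open Finset

namespace Pool.MP_35885f.TL

open scoped Classical

/-- vectors on the edges of `F` with even degrees outside `D` -/
def repM {V : Type} [Fintype V] (F : SimpleGraph V) (D : Finset V) :
    Submodule (ZMod 2) (Sym2 V → ZMod 2) where
  carrier := {f | (∀ e, e ∉ F.edgeSet → f e = 0) ∧ ∀ v, v ∉ D → ∑ w, f s(v, w) = 0}
  zero_mem' := by simp
  add_mem' := by
    rintro f g ⟨hf1, hf2⟩ ⟨hg1, hg2⟩
    refine ⟨fun e he => ?_, fun v hv => ?_⟩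
    · rw [Pi.add_apply, hf1 e he, hg1 e he, add_zero]
    · simp only [Pi.add_apply, Finset.sum_add_distrib]
      rw [hf2 v hv, hg2 v hv, add_zero]
  smul_mem' := by
    rintro c f ⟨hf1, hf2⟩
    refine ⟨fun e he => ?_, fun v hv => ?_⟩
    · rw [Pi.smul_apply, hf1 e he, smul_zero]
    · simp only [Pi.smul_apply, ← Finset.smul_sum]
      rw [hf2 v hv, smul_zero]

/-- the degrees in `D` -/
noncomputable def repBd {V : Type} [Fintype V] (F : SimpleGraph V) (D : Finset V) :
    repM F D →ₗ[ZMod 2] (D → ZMod 2) where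
  toFun g v := ∑ w, g.1 s(v.1, w)
  map_add' g h := by
    funext v
    simp [Finset.sum_add_distrib]
  map_smul' c g := by
    funext v
    simp [Finset.mul_sum]

/-- Row REP. -/
theorem rep : REP := by
  intro V _ F hF D
  have hinj : LinearMap.ker (repBd F D) = ⊥ := by
    rw [LinearMap.ker_eq_bot']
    intro g hg
    have h1 : g.1 ∈ cycleSpace F := by
      refine ⟨g.2.1, fun v => ?_⟩
      by_cases hv : v ∈ D
      · exact congrFun hg ⟨v, hv⟩
      · exact g.2.2 v hv
    rw [hF, Submodule.mem_bot] at h1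
    exact Subtype.ext h1
  obtain ⟨r, hr⟩ := LinearMap.exists_leftInverse_of_injective (repBd F D) hinj
  refine ⟨fun e v => if h : v ∈ D then (r (Pi.single ⟨v, h⟩ 1)).1 e else 0, ?_⟩
  intro g hg1 hg2 e
  set g' : repM F D := ⟨g, hg1, hg2⟩ with hg'
  have h1 : r (repBd F D g') = g' := by
    have := LinearMap.congr_fun hr g'
    simpa using this
  have h2 : repBd F D g' = ∑ v : D, (repBd F D g' v) • (Pi.single v (1 : ZMod 2) : D → ZMod 2) := by
    funext u
    simp [Finset.sum_apply, Pi.single_apply]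
  have h3 : g' = ∑ v : D, (repBd F D g' v) • r (Pi.single v (1 : ZMod 2) : D → ZMod 2) := by
    conv_lhs => rw [← h1, h2]
    rw [map_sum]
    exact Finset.sum_congr rfl fun v _ => by rw [map_smul]
  have h4 : g e = ∑ v : D, (∑ w, g s(v.1, w)) * (r (Pi.single v (1 : ZMod 2) : D → ZMod 2)).1 e := by
    have h5 := congrArg (fun x : repM F D => x.1 e) h3
    simp only [Submodule.coe_sum, Finset.sum_apply, Submodule.coe_smul, Pi.smul_apply,
      smul_eq_mul] at h5
    exact h5
  rw [h4, ← Finset.sum_coe_sort D]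
  refine Finset.sum_congr rfl fun v _ => ?_
  beta_reduce
  rw [dif_pos v.2, mul_comm]

end Pool.MP_35885f.TL
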