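import Pool.Agent.Lib.MP_35885f_tl.Stat

/-!
# Row ROOT: rooting a tree decomposition, the leaves
-/

open Finset

namespace Pool.MP_35885f.TL

open scoped Classical

lemma root_fix {ι : Type} {T : SimpleGraph ι} (hT : T.IsTree) (r s : ι) :
    parent T r s = s ↔ s = r := by
  have hr : parent T r r = r := by
    by_contra h
    have := parent_dist h
    rw [SimpleGraph.dist_self] at this
    omega
  constructor
  · intro hs
    have key : ∀ (a b : ι) (_ : T.Walk a b), (∃ n, (parent T r)^[n] a = s) →
        ∃ n, (parent T r)^[n] b = s := by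
      intro a b w
      induction w with
      | nil => exact id
      | cons hadj w ih =>
        rintro ⟨n, hn⟩
        apply ih
        rcases parent_adj hT r hadj with h | h
        · refine ⟨n + 1, ?_⟩
          rw [Function.iterate_succ_apply, h]
          exact hn
        · cases n with
          | zero =>
            simp only [Function.iterate_zero, id_eq] at hn
            exfalso
            rw [hn, hs] at h
            rw [hn, ← h] at hadj
            exact hadj.ne rfl
          | succ n =>
            refine ⟨n, ?_⟩
            rw [Function.iterate_succ_apply, h] at hn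
            exact hn
    obtain ⟨w⟩ := hT.connected.preconnected s r
    obtain ⟨n, hn⟩ := key s r w ⟨0, rfl⟩
    rw [Function.iterate_fixed hr] at hn
    exact hn.symm
  · rintro rfl
    exact hr

/-- `exists_rooting` with the explicit parent function -/
theorem root_rooting {V : Type} {G : SimpleGraph V} (D : TreeDecomp G) :
    ∃ (r : D.ι) (ρ : D.ι → ℕ), Function.Injective ρ ∧
      (∀ s, parent D.T r s ≠ s → ρ s < ρ (parent D.T r s)) ∧
      ∀ v s s', v ∈ D.bag s → v ∈ D.bag s' → ρ s < ρ s' → v ∈ D.bag (parent D.T r s) := by
  have := D.fin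
  have : Fintype D.ι := Fintype.ofFinite _
  have hT := D.isTree
  obtain ⟨r⟩ := hT.connected.nonempty
  set M := univ.sup (fun s => D.T.dist r s) with hM
  have hMle : ∀ s, D.T.dist r s ≤ M :=
    fun s => Finset.le_sup (f := fun s => D.T.dist r s) (mem_univ s)
  set N := Fintype.card D.ι with hN
  set idx := Fintype.equivFin D.ι with hidx
  set ρ : D.ι → ℕ := fun s => (M - D.T.dist r s) * N + idx s with hρ
  have hlt : ∀ s s', D.T.dist r s' < D.T.dist r s → ρ s < ρ s' := by
    intro s s' h
    have h1 := (idx s).2
    have h2 := hMle s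
    have h3 : M - D.T.dist r s + 1 ≤ M - D.T.dist r s' := by omega
    calc ρ s < (M - D.T.dist r s) * N + N := by simp only [hρ]; omega
      _ = (M - D.T.dist r s + 1) * N := by ring
      _ ≤ (M - D.T.dist r s') * N := Nat.mul_le_mul_right _ h3
      _ ≤ ρ s' := Nat.le_add_right _ _
  refine ⟨r, ρ, ?_, ?_, ?_⟩
  · intro s s' h
    rcases lt_trichotomy (D.T.dist r s) (D.T.dist r s') with h1 | h1 | h1
    · exact absurd h (hlt s' s h1).ne'
    · simp only [hρ, h1] at h
      have : idx s = idx s' := Fin.ext (by omega)
      exact idx.injective this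
    · exact absurd h (hlt s s' h1).ne
  · intro s hs
    have := parent_dist hs
    exact hlt _ _ (by omega)
  · intro v s s' hs hs' hlt'
    have hmono : ∀ x, ρ x ≤ ρ (parent D.T r x) := by
      intro x
      by_cases h : parent D.T r x = x
      · rw [h]
      · have := parent_dist h
        exact (hlt _ _ (by omega)).le
    have hmono' : ∀ n x, ρ x ≤ ρ ((parent D.T r)^[n] x) := by
      intro n
      induction n with
      | zero => intro x; exact le_rfl
      | succ n ih => intro x; rw [Function.iterate_succ_apply]; exact (hmono x).trans (ih _)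
    set S : Set {x | v ∈ D.bag x} := {x | ∃ n, (parent D.T r)^[n] x.1 = s} with hS
    obtain ⟨w⟩ := (D.conn v).preconnected ⟨s, hs⟩ ⟨s', hs'⟩
    have h1 : (⟨s, hs⟩ : {x | v ∈ D.bag x}) ∈ S := ⟨0, rfl⟩
    have h2 : (⟨s', hs'⟩ : {x | v ∈ D.bag x}) ∉ S := by
      rintro ⟨n, hn⟩
      have := hmono' n s'
      simp only at hn
      rw [hn] at this
      omega
    obtain ⟨d, -, hd1, hd2⟩ := w.exists_boundary_dart S h1 h2
    have hadj : D.T.Adj d.fst.1 d.snd.1 := d.adj
    obtain ⟨n, hn⟩ := hd1
    rcases parent_adj hT r hadj with h | h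
    · exfalso
      apply hd2
      refine ⟨n + 1, ?_⟩
      rw [Function.iterate_succ_apply, h]; exact hn
    · cases n with
      | zero =>
        simp only [Function.iterate_zero, id_eq] at hn
        rw [← hn, h]
        exact d.snd.2
      | succ n =>
        exfalso
        apply hd2
        refine ⟨n, ?_⟩
        rw [Function.iterate_succ_apply, h] at hn; exact hn

theorem root : ROOT := by
  intro V _ G D k L hk hL
  have hfin := D.fin
  have hT := D.isTree
  obtain ⟨r, ρ, hinj, hup, hclimb⟩ := root_rooting D
  refine ⟨D.ι, Fintype.ofFinite _, ⟨D.bag, parent D.T r, ρ, r, hinj, hup, root_fix hT r, hclimb,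
    ?_, D.edge⟩, hk, ?_⟩
  · intro v
    obtain ⟨x, hx⟩ := (D.conn v).nonempty
    exact ⟨x, hx⟩
  · refine le_trans ?_ hL
    rw [← Set.ncard_coe_finset]
    refine Set.ncard_le_ncard ?_ (Set.toFinite _)
    intro x hx y z hy hz
    have hx' : ∀ s, parent D.T r s = x → s = x := by simpa using hx
    have key : ∀ y, D.T.Adj x y → parent D.T r x = y := by
      intro y hy
      rcases parent_adj hT r hy with h | h
      · exact absurd (hx' y h) hy.ne'
      · exact h
    exact (key y hy).symm.trans (key z hz)

end Pool.MP_35885f.TL
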