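import Pool.Agent.Lib.MP_35885f_co.Final
import Pool.Agent.Lib.MP_35885f_tl.PW

/-!
# Tree decompositions whose tree has few leaves: `bn(G) ≤ 80 k + log₂ L`

Paper proof (helper67). Let `G` have a tree decomposition with bags of at most `k + 1` vertices
whose tree has at most `L` leaves.

1. `EMR`: if `24 (tw(G) + 1) ≤ 2 ^ κ` and `R` is a set of edges, some cycle basis `B` satisfies
   `ply e B ≤ 12 κ + log₂ |R|` for all `e ∈ R` (average of the random cycle basis of `tfr2`).
2. `FOR`: every graph `P` has a maximal forest `F`; every other edge `e` of `P` lies in a cycle of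
   `P` whose other edges are in `F`.
3. `REP`: in a forest `F`, a vector `g` on the edges of `F` with even degrees outside `D` is
   determined by its degrees in `D`: `g e = ∑_{v ∈ D} a e v * deg g v`.
4. `GLUE`: if the edges of `G` are partitioned into classes `P_j`, `j ∈ J`, each of which shares at
   most `t` vertices with the other classes, and `bn(P_j) ≤ b`, then
   `bn(G) ≤ b + 12 κ + t + log₂ |J|`. Proof: `F_j` a maximal forest of `P_j`, `H` the union of the
   `F_j`. The cycle space of `G` is the sum of those of `H` and of the `P_j`. By `REP` a cycle `z` of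
   `H` has the same value at two edges of `F_j` with the same vector `a_j e`, so `H` has at most
   `|J| 2 ^ t` classes of edges with the same ply, and `EMR` for a set `R` of representatives gives
   a cycle basis of `H` with ply at most `12 κ + t + log₂ |J|` everywhere.
5. Root the tree (`ROOT`). A node is a top if it is the root, or has at least two children, or if
   its parent has at least two children; there are at most `3 L` tops (`TOPS`). Every node climbs to
   its first top; the nodes with the same top form a vertical path (`CHN`).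
   The class of an edge is the top of its home (a node whose bag contains both ends). The classes
   have path decompositions with bags of at most `k + 1` vertices (`PD`), so `b = k + 1`, and share
   at most `2 (k + 1)` vertices with the others (`BDY`).
-/

open Finset

namespace Pool.MP_35885f.TL

open scoped Classical

/-- Row EMR. -/
def EMR : Prop := ∀ (V : Type) [Fintype V] (G : SimpleGraph V) (κ : ℕ),
  24 * (treewidth G + 1) ≤ 2 ^ κ → ∀ R : Finset (Sym2 V), (∀ e ∈ R, e ∈ G.edgeSet) →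
  ∃ B : Finset (Sym2 V → ZMod 2), IsCycleBasis G B ∧ ∀ e ∈ R, ply e B ≤ 12 * κ + Nat.log 2 R.card

/-- Row TWM: the treewidth is monotone. -/
def TWM : Prop := ∀ (V : Type) [Fintype V] (G H : SimpleGraph V), H ≤ G → treewidth H ≤ treewidth G

/-- Row FOR: maximal forests. -/
def FOR : Prop := ∀ (V : Type) [Fintype V] (P : SimpleGraph V), ∃ F ≤ P, cycleSpace F = ⊥ ∧
  ∀ e ∈ P.edgeSet, e ∉ F.edgeSet →
    ∃ z ∈ cycleSpace P, z e = 1 ∧ ∀ f, f ≠ e → f ∉ F.edgeSet → z f = 0

/-- Row REP: vectors on a forest. -/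
def REP : Prop := ∀ (V : Type) [Fintype V] (F : SimpleGraph V), cycleSpace F = ⊥ →
  ∀ D : Finset V, ∃ a : Sym2 V → V → ZMod 2, ∀ g : Sym2 V → ZMod 2,
    (∀ e, e ∉ F.edgeSet → g e = 0) → (∀ v, v ∉ D → ∑ w, g s(v, w) = 0) →
    ∀ e, g e = ∑ v ∈ D, a e v * ∑ w, g s(v, w)

/-- The edges of class `j`. -/
def cls {V J : Type} (G : SimpleGraph V) (c : Sym2 V → J) (j : J) : SimpleGraph V where
  Adj u v := G.Adj u v ∧ c s(u, v) = j
  symm := ⟨fun u v h => ⟨h.1.symm, by rw [Sym2.eq_swap]; exact h.2⟩⟩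
  loopless := ⟨fun _ h => h.1.ne rfl⟩

/-- The vertices which the class `j` shares with the other classes. -/
noncomputable def bdy {V J : Type} [Fintype V] (G : SimpleGraph V) (c : Sym2 V → J) (j : J) :
    Finset V :=
  univ.filter fun v => (∃ w, G.Adj v w ∧ c s(v, w) = j) ∧ ∃ w, G.Adj v w ∧ c s(v, w) ≠ j

/-- Row GLUE. -/
def GLUE : Prop := EMR → TWM → FOR → REP → ∀ (V J : Type) [Fintype V] [Fintype J] [Nonempty J]
  (G : SimpleGraph V) (c : Sym2 V → J) (t b κ : ℕ), 24 * (treewidth G + 1) ≤ 2 ^ κ →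
  (∀ j, (bdy G c j).card ≤ t) → (∀ j, basisNumber (cls G c j) ≤ b) →
  basisNumber G ≤ b + (12 * κ + (t + Nat.log 2 (Fintype.card J)))

/-- A rooted tree decomposition. -/
structure Rooted {V : Type} (G : SimpleGraph V) (N : Type) where
  bag : N → Finset V
  par : N → N
  ρ : N → ℕ
  r : N
  inj : Function.Injective ρ
  up : ∀ s, par s ≠ s → ρ s < ρ (par s)
  root : ∀ s, par s = s ↔ s = r
  climb : ∀ v s s', v ∈ bag s → v ∈ bag s' → ρ s < ρ s' → v ∈ bag (par s)
  cover : ∀ v, ∃ x, v ∈ bag x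
  edge : ∀ u v, G.Adj u v → ∃ x, u ∈ bag x ∧ v ∈ bag x

variable {V : Type} {G : SimpleGraph V} {N : Type}

/-- `x` has at least two children. -/
def Rooted.Br (D : Rooted G N) (x : N) : Prop :=
  ∃ s s', s ≠ s' ∧ s ≠ x ∧ s' ≠ x ∧ D.par s = x ∧ D.par s' = x

/-- `x` is a top. -/
def Rooted.Top (D : Rooted G N) (x : N) : Prop := x = D.r ∨ D.Br x ∨ D.Br (D.par x)

/-- The number of steps from `x` to its top. -/
noncomputable def Rooted.lvl (D : Rooted G N) (x : N) : ℕ :=
  if h : ∃ n, D.Top (D.par^[n] x) then Nat.find h else 0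

/-- The top of `x`. -/
noncomputable def Rooted.top (D : Rooted G N) (x : N) : N := D.par^[D.lvl x] x

/-- Row ROOT. -/
def ROOT : Prop := ∀ (V : Type) [Fintype V] (G : SimpleGraph V) (D : TreeDecomp G) (k L : ℕ),
  (∀ x, (D.bag x).card ≤ k + 1) →
  {x : D.ι | ∀ y z, D.T.Adj x y → D.T.Adj x z → y = z}.ncard ≤ L →
  ∃ (N : Type) (_ : Fintype N) (R : Rooted G N), (∀ x, (R.bag x).card ≤ k + 1) ∧
    (univ.filter fun x : N => ∀ s, R.par s = x → s = x).card ≤ L

/-- Row TOPS. -/
def TOPS : Prop := ∀ (V N : Type) [Fintype N] (G : SimpleGraph V) (R : Rooted G N),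
  (univ.filter fun x => R.Top x).card ≤ 3 * (univ.filter fun x : N => ∀ s, R.par s = x → s = x).card

/-- Row CHN: the nodes with the same top form a vertical path. -/
def CHN : Prop := ∀ (V N : Type) [Fintype N] (G : SimpleGraph V) (R : Rooted G N),
  (∀ x, R.Top (R.top x)) ∧ (∀ x, R.Top x → R.lvl x = 0 ∧ R.top x = x) ∧
  (∀ x, ¬ R.Top x → R.lvl x = R.lvl (R.par x) + 1 ∧ R.top x = R.top (R.par x)) ∧
  ∀ x y, R.top x = R.top y → R.lvl x = R.lvl y → x = y

/-- Row PD. -/
def PD : Prop := CHN → ∀ (V N : Type) [Fintype V] [Fintype N] (G : SimpleGraph V) (R : Rooted G N)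
  (k : ℕ), (∀ x, (R.bag x).card ≤ k + 1) → ∀ home : Sym2 V → N,
  (∀ u v, G.Adj u v → u ∈ R.bag (home s(u, v)) ∧ v ∈ R.bag (home s(u, v))) →
  ∀ j, pathwidth (cls G (fun e => R.top (home e)) j) ≤ k

/-- Row BDY. -/
def BDY : Prop := CHN → ∀ (V N : Type) [Fintype V] [Fintype N] (G : SimpleGraph V) (R : Rooted G N)
  (k : ℕ), (∀ x, (R.bag x).card ≤ k + 1) → ∀ home : Sym2 V → N,
  (∀ u v, G.Adj u v → u ∈ R.bag (home s(u, v)) ∧ v ∈ R.bag (home s(u, v))) →
  ∀ j, (bdy G (fun e => R.top (home e)) j).card ≤ 2 * (k + 1)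

/-- Row FIN. -/
def FIN : Prop := EMR → TWM → FOR → REP → GLUE → ROOT → TOPS → CHN → PD → BDY →
  ∀ (V : Type) [Fintype V] (G : SimpleGraph V) (D : TreeDecomp G) (k L : ℕ), 1 ≤ k →
  (∀ x, (D.bag x).card ≤ k + 1) →
  {x : D.ι | ∀ y z, D.T.Adj x y → D.T.Adj x z → y = z}.ncard ≤ L →
  basisNumber G ≤ 80 * k + Nat.log 2 L

end Pool.MP_35885f.TL
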