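import Pool.Agent.Lib.MP_35885f_tl.Stat

/-!
# Row TOPS: the number of tops
-/

open Finset

namespace Pool.MP_35885f.TL

open scoped Classical

theorem tops : TOPS := by
  intro V N _ G R
  set ch : N → Finset N := fun x => univ.filter fun s => s ≠ x ∧ R.par s = x with hch
  have hr : ∀ s, R.par s = s ↔ s = R.r := R.root
  -- the number of children
  have hsum : ∑ x, (ch x).card + 1 = Fintype.card N := by
    have h1 : (univ.filter fun s : N => ¬ R.par s = s).card = ∑ x, (ch x).card := by
      rw [Finset.card_eq_sum_card_fiberwise (f := R.par) (t := univ) fun _ _ => mem_univ _]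
      refine Finset.sum_congr rfl fun x _ => ?_
      congr 1
      ext s
      simp only [hch, Finset.mem_filter, Finset.mem_univ, true_and]
      constructor
      · rintro ⟨h1, h2⟩
        exact ⟨fun h3 => h1 (by rw [h2, h3]), h2⟩
      · rintro ⟨h1, h2⟩
        exact ⟨fun h3 => h1 (by rw [← h3, h2]), h2⟩
    have h2 : (univ.filter fun s : N => R.par s = s).card = 1 := by
      rw [Finset.card_eq_one]
      exact ⟨R.r, by ext s; simp [hr]⟩
    have h3 := Finset.card_filter_add_card_filter_not (s := (univ : Finset N))
      (fun s : N => R.par s = s)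
    rw [h2, h1, Finset.card_univ] at h3
    omega
  have hBr : ∀ x, R.Br x → 2 ≤ (ch x).card := by
    rintro x ⟨s, s', h1, h2, h3, h4, h5⟩
    have h6 : ({s, s'} : Finset N) ⊆ ch x := by
      intro u hu
      rw [Finset.mem_insert, Finset.mem_singleton] at hu
      rcases hu with rfl | rfl
      · simp [hch, h2, h4]
      · simp [hch, h3, h5]
    have h7 := card_le_card h6
    rwa [Finset.card_pair h1] at h7
  have hkey : ∀ x, (if R.Br x then 1 + (ch x).card else 0) + 3 ≤
      3 * (ch x).card + (if ∀ s, R.par s = x → s = x then 3 else 0) := by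
    intro x
    by_cases hb : R.Br x
    · have := hBr x hb
      rw [if_pos hb]
      omega
    · rw [if_neg hb]
      by_cases h0 : ∀ s, R.par s = x → s = x
      · rw [if_pos h0]
        omega
      · rw [if_neg h0]
        push Not at h0
        obtain ⟨s, h1, h2⟩ := h0
        have h3 : 0 < (ch x).card := Finset.card_pos.2 ⟨s, by simp [hch, h1, h2]⟩
        omega
  have htot := Finset.sum_le_sum fun x (_ : x ∈ (univ : Finset N)) => hkey x
  rw [Finset.sum_add_distrib, Finset.sum_add_distrib, ← Finset.mul_sum, ← Finset.sum_filter,
    ← Finset.sum_filter, Finset.sum_const, Finset.sum_const, Finset.card_univ, smul_eq_mul,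
    smul_eq_mul] at htot
  have hsub : (univ.filter fun x => R.Top x) ⊆
      insert R.r ((univ.filter fun x => R.Br x).biUnion fun x => insert x (ch x)) := by
    intro x hx
    have hx' : x = R.r ∨ R.Br x ∨ R.Br (R.par x) := (Finset.mem_filter.1 hx).2
    rw [Finset.mem_insert]
    rcases hx' with h | h | h
    · exact Or.inl h
    · refine Or.inr (Finset.mem_biUnion.2 ⟨x, by simp [h], Finset.mem_insert_self _ _⟩)
    · refine Or.inr (Finset.mem_biUnion.2 ⟨R.par x, by simp [h], ?_⟩)
      rw [Finset.mem_insert]
      by_cases h' : x = R.par x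
      · exact Or.inl h'
      · exact Or.inr (by simp only [hch, Finset.mem_filter, Finset.mem_univ, true_and]
                         exact ⟨h', trivial⟩)
  have hcard := card_le_card hsub
  have h1 := Finset.card_insert_le R.r
    ((univ.filter fun x => R.Br x).biUnion fun x => insert x (ch x))
  have h2 : ((univ.filter fun x => R.Br x).biUnion fun x => insert x (ch x)).card ≤
      ∑ x with R.Br x, (1 + (ch x).card) := by
    refine Finset.card_biUnion_le.trans (Finset.sum_le_sum fun x _ => ?_)
    have := Finset.card_insert_le x (ch x)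
    omega
  omega

end Pool.MP_35885f.TL
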