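import Pool.Agent.Lib.MP_35885f_tl.Stat

/-!
# Row TWM
-/

namespace Pool.MP_35885f.TL

/-- Row TWM. -/
theorem twm : TWM := by
  intro V _ G H hHG
  obtain ⟨D, hD⟩ := Nat.sInf_mem (exists_treeDecomp G)
  exact Nat.sInf_le ⟨⟨D.ι, D.fin, D.T, D.isTree, D.bag, D.conn, fun u v h => D.edge u v (hHG h)⟩,
    hD⟩

end Pool.MP_35885f.TL
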